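import Pool.Agent.H45.ARMain

set_option autoImplicit false

open Pool.Agent.H45.AR

namespace Pool.Agent.Results.MP_646863_pr.LiouvilleNotAR

/-- A finitely generated group, Liouville with respect to a finite symmetric generating set,
which is not algebraically recurrent. -/
theorem result : ∃ (G : Type) (_ : Group G) (_ : Countable G) (S : Finset G),
    (1 : G) ∉ S ∧ (∀ s ∈ S, s⁻¹ ∈ S) ∧ Subgroup.closure (S : Set G) = ⊤ ∧
    (∀ f : G → ℝ, (∃ M : ℝ, ∀ g, |f g| ≤ M) →
      (∀ g, f g = (∑ s ∈ S, f (g * s)) / (S.card : ℝ)) → ∀ g h, f g = f h) ∧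
    ¬ IsAR G := by
  obtain ⟨S, h1, h2, h3, h4⟩ := Wr_srw
  exact ⟨Wr, inferInstance, inferInstance, S, h1, h2, h3, h4, not_isAR_Wr⟩

end Pool.Agent.Results.MP_646863_pr.LiouvilleNotAR
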